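import Mathlib
import Pool.Agent.N604.MW.Stm10
import Pool.Agent.N232.KW_DL1

/-!
# Project AD (helper604), part AL1 (helper218): the mean of the product over the small frequencies
-/

set_option autoImplicit false

namespace Pool.Agent.N218.AD

open Finset MeasureTheory Pool.Agent.N604.MW
open Pool.Agent.N277.KV (lintegral_pi_prod jensen_sq)
open Pool.Agent.N232.KW (int_rpow)
open scoped ENNReal

/-- the absolute value -/
noncomputable def fa (k ν : ℕ) (t a : ℝ) : ℝ≥0∞ := ENNReal.ofReal ‖SG (BX ν) (fk k a) t‖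

lemma SG_measurable (k ν : ℕ) : Measurable fun p : ℝ × ℝ => SG (BX ν) (fk k p.1) p.2 := by
  refine Continuous.measurable ?_
  unfold SG fk e
  fun_prop

lemma fa_meas2 (k ν : ℕ) : Measurable fun p : ℝ × ℝ => fa k ν p.2 p.1 :=
  (SG_measurable k ν).norm.ennreal_ofReal

lemma fa_meas (k ν : ℕ) (t : ℝ) : Measurable (fa k ν t) :=
  Measurable.comp (g := fun p : ℝ × ℝ => fa k ν p.2 p.1) (f := fun a => (a, t))
    (fa_meas2 k ν) (by fun_prop)

/-- the mean of the absolute value -/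
noncomputable def ha (k ν : ℕ) (t : ℝ) : ℝ≥0∞ := ∫⁻ a, fa k ν t a ∂G1

theorem swap_eq (s k ν : ℕ) (I : Set ℝ) :
    ∫⁻ α, (∫⁻ t in I, ENNReal.ofReal (∏ i, ‖SG (BX ν) (fk k (α i)) t‖)) ∂(GM s) =
    ∫⁻ t in I, ∏ _i : Fin s, ha k ν t := by
  have h1 : ∀ (α : Fin s → ℝ) (t : ℝ), ENNReal.ofReal (∏ i, ‖SG (BX ν) (fk k (α i)) t‖) =
      ∏ i, fa k ν t (α i) := by
    intro α t
    rw [ENNReal.ofReal_prod_of_nonneg fun i _ => norm_nonneg _]
    rfl
  simp only [h1]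
  rw [lintegral_lintegral_swap]
  · refine lintegral_congr fun t => ?_
    unfold GM ha
    exact lintegral_pi_prod (fun _ : Fin s => G1) (fun _ => fa k ν t) fun _ => fa_meas k ν t
  · refine Measurable.aemeasurable ?_
    refine Finset.measurable_prod _ fun i _ => ?_
    exact Measurable.comp (g := fun p : ℝ × ℝ => fa k ν p.2 p.1)
      (f := fun p : (Fin s → ℝ) × ℝ => (p.1 i, p.2)) (fa_meas2 k ν) (by fun_prop)

lemma ha_le_sqrt (k ν : ℕ) (t : ℝ) (M : ℝ) (hM0 : 0 ≤ M)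
    (hM : ∫⁻ a, ENNReal.ofReal (‖SG (BX ν) (fk k a) t‖ ^ 2) ∂G1 ≤ ENNReal.ofReal (M ^ 2)) :
    ha k ν t ≤ ENNReal.ofReal M := by
  have h1 : ha k ν t ^ 2 ≤ ENNReal.ofReal M ^ 2 := by
    refine (jensen_sq _ _ (fa_meas k ν t)).trans ?_
    rw [← ENNReal.ofReal_pow hM0]
    refine le_trans (lintegral_mono fun a => ?_) hM
    rw [ENNReal.ofReal_pow (norm_nonneg _)]
    exact le_rfl
  exact (ENNReal.pow_le_pow_left_iff two_ne_zero).1 h1

theorem al1 (h : S_AL2) : S_AL1 := by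
  intro k s δ hk hks hδ hδ1
  obtain ⟨C, hC, H⟩ := h k hk
  have hkr : (3 : ℝ) ≤ k := by exact_mod_cast hk
  have hk0 : (0 : ℝ) < k := by linarith
  have hksr : (k : ℝ) < s := by exact_mod_cast hks
  set r : ℝ := (s : ℝ) / k with hr
  have hr1 : 1 < r := by
    rw [hr, lt_div_iff₀ hk0]
    linarith
  set B : ℝ := Real.sqrt (2 * C) ^ s with hB
  have hB0 : 0 < B := by positivity
  have hr1' : 0 < r - 1 := by linarith
  refine ⟨2 * (B * (1 / (r - 1))), by positivity, ?_⟩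
  intro ν
  rw [swap_eq s k ν]
  set η0 : ℝ := (2 : ℝ) ^ ((ν : ℝ) * (-(k : ℝ) + δ)) with hη0
  set ηm : ℝ := (2 : ℝ) ^ (-((k : ℝ) * ν / 2)) with hηm
  have hη0p : 0 < η0 := Real.rpow_pos_of_pos two_pos _
  have hηm1 : ηm ≤ 1 := by
    rw [hηm]
    refine Real.rpow_le_one_of_one_le_of_nonpos one_le_two ?_
    have : 0 ≤ (k : ℝ) * ν / 2 := by positivity
    linarith
  have hpt : ∀ t ∈ Arc η0 ηm, ∏ _i : Fin s, ha k ν t ≤ ENNReal.ofReal (B * |t| ^ (-r)) := by
    intro t ht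
    have ht0 : 0 < |t| := hη0p.trans_le ht.1
    have ht1 : |t| ≤ 1 := ht.2.trans hηm1
    set D : ℝ := |t| ^ (-(1 / (k : ℝ))) with hD
    have hD0 : 0 < D := Real.rpow_pos_of_pos ht0 _
    have hD2 : D ^ 2 = |t| ^ (-(2 / (k : ℝ))) := by
      rw [hD, ← Real.rpow_natCast, ← Real.rpow_mul ht0.le]
      congr 1
      push_cast
      ring
    have hν : (2 : ℝ) ^ ν ≤ |t| ^ (-(2 / (k : ℝ))) := by
      have e1 : ηm ^ (-(2 / (k : ℝ))) ≤ |t| ^ (-(2 / (k : ℝ))) := by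
        refine Real.rpow_le_rpow_of_nonpos ht0 ht.2 ?_
        have : 0 < 2 / (k : ℝ) := by positivity
        linarith
      have e2 : ηm ^ (-(2 / (k : ℝ))) = (2 : ℝ) ^ ν := by
        rw [hηm, ← Real.rpow_mul zero_le_two, ← Real.rpow_natCast]
        congr 1
        field_simp
      rwa [e2] at e1
    have h1 : ha k ν t ≤ ENNReal.ofReal (Real.sqrt (2 * C) * D) := by
      refine ha_le_sqrt k ν t _ (by positivity) ?_
      refine (H ν t ht0 ht1).trans (ENNReal.ofReal_le_ofReal ?_)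
      rw [mul_pow, Real.sq_sqrt (by positivity), hD2]
      calc C * ((2 : ℝ) ^ ν + |t| ^ (-(2 / (k : ℝ))))
          ≤ C * (|t| ^ (-(2 / (k : ℝ))) + |t| ^ (-(2 / (k : ℝ)))) := by gcongr
        _ = 2 * C * |t| ^ (-(2 / (k : ℝ))) := by ring
    have h2 : ∏ _i : Fin s, ha k ν t ≤ ENNReal.ofReal ((Real.sqrt (2 * C) * D) ^ s) := by
      rw [Finset.prod_const, Finset.card_univ, Fintype.card_fin, ENNReal.ofReal_pow (by positivity)]
      exact pow_le_pow_left' h1 s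
    refine h2.trans (ENNReal.ofReal_le_ofReal (le_of_eq ?_))
    rw [mul_pow, hB]
    congr 1
    rw [hD, ← Real.rpow_natCast, ← Real.rpow_mul ht0.le]
    congr 1
    rw [hr]
    ring
  refine ((setLIntegral_mono' ?_ hpt).trans (int_rpow η0 ηm r B hη0p hr1 hB0.le)).trans
    (ENNReal.ofReal_le_ofReal (le_of_eq ?_))
  · exact measurableSet_Arc _ _
  · have e1 : η0 ^ (1 - r) = (2 : ℝ) ^ ((ν : ℝ) * (((s : ℝ) - k) - δ * (((s : ℝ) - k) / k))) := by
      rw [hη0, ← Real.rpow_mul zero_le_two]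
      congr 1
      rw [hr]
      field_simp
      ring
    rw [e1]
    ring

end Pool.Agent.N218.AD
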